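import Mathlib
import Pool.Agent.Lib.helper28.RepB

namespace Pool.Agent.Results.MP_321233_an.OnePoint

theorem result :
    ∃ Λ : ℕ → ℂ, Function.Injective Λ ∧ (∀ n, ‖Λ n‖ < 1) ∧
      Filter.Tendsto Λ Filter.atTop (nhds 1) ∧
      ∀ f : ℕ → ℂ, Summable (fun n => ‖f n‖ ^ 2) →
        ∃ c : ℕ → ℂ, Filter.Tendsto
          (fun N : ℕ => ∑' n : ℕ,
            ‖f n - ∑ k ∈ Finset.range N, c k * (starRingEnd ℂ (Λ k)) ^ n‖ ^ 2)
          Filter.atTop (nhds 0) := by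
  obtain ⟨L, h1, h2, h3, h4⟩ := Pool.Agent.H28Rep.exists_to_one
  refine ⟨fun n => (L n : ℂ), Complex.ofReal_injective.comp h1, fun n => ?_, ?_, h4⟩
  · rw [Complex.norm_real, Real.norm_eq_abs, abs_of_pos (h2 n).1]
    exact (h2 n).2
  · exact (Complex.continuous_ofReal.tendsto 1).comp h3

end Pool.Agent.Results.MP_321233_an.OnePoint
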